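import Pool.Agent.helper90.Zp.Main
import Pool.Agent.helper86.Zp.LPoly

open scoped Polynomial
open Pool.Agent.helper90.Zp Filter

namespace Pool.Agent.Results.MP_7758f8_nt.SplittingDegree

/-- For every `ℤ_p`-tower of curves over a finite field, each curve of the tower has a unique
L-polynomial `P n`, the degree over `ℚ_p` of the field generated by the roots of `P n` tends to
infinity, and it is at least a positive constant times `p ^ n`. -/
theorem result (p : ℕ) [Fact p.Prime] (k K Ω : Type*) [Field k] [Finite k] [CharP k p] [Field K]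
    [Algebra k K] [IsFunctionField k K] [Field Ω] [Algebra k Ω] [Algebra K Ω]
    [IsScalarTower k K Ω] (L : ℕ → IntermediateField K Ω) (h : IsZpTower p k L) :
    ∃ P : ℕ → ℤ[X], (∀ (n : ℕ) (Q : ℤ[X]), IsLPolynomial k (L n) Q ↔ Q = P n) ∧
      (∃ c : ℝ, 0 < c ∧ ∀ᶠ n : ℕ in atTop,
        c * (p : ℝ) ^ n ≤ Module.finrank ℚ_[p] (padicSplittingField p (P n))) ∧
      Tendsto (fun n => Module.finrank ℚ_[p] (padicSplittingField p (P n))) atTop atTop := by
  have hex : ∀ n, ∃ P : ℤ[X], IsLPolynomial k (L n) P := by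
    intro n
    have hfd := h.finiteDimensional n
    have hfull := h.isFullConstantField n
    have hff : IsFunctionField k (L n) :=
      IsFunctionField.of_finiteDimensional (k := k) (K := K) (L := L n)
    exact exists_LPolynomial k (L n)
  choose P hP using hex
  obtain ⟨c, hc, hb⟩ := main_bound h P hP
  refine ⟨P, ?_, ⟨c, hc, hb⟩, ?_⟩
  · intro n Q
    refine ⟨fun hQ => Polynomial.coe_injective ℤ (hQ.trans (hP n).symm), ?_⟩
    rintro rfl
    exact hP n
  · have hp : 1 < (p : ℝ) := by exact_mod_cast (Fact.out : p.Prime).one_lt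
    have h1 : Tendsto (fun n : ℕ => c * (p : ℝ) ^ n) atTop atTop :=
      (tendsto_pow_atTop_atTop_of_one_lt hp).const_mul_atTop hc
    have h2 : Tendsto (fun n : ℕ =>
        ((Module.finrank ℚ_[p] (padicSplittingField p (P n)) : ℕ) : ℝ)) atTop atTop :=
      tendsto_atTop_mono' atTop hb h1
    exact tendsto_natCast_atTop_iff.mp h2

end Pool.Agent.Results.MP_7758f8_nt.SplittingDegree
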